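import Pool.Agent.Helper65.HCS.Goals
import Pool.Agent.Helper72.HC.WCS

/-!
# Packet HCS-WIN: circuits on words and windows on numbers
-/

namespace Pool.Agent.Helper30.HCS

open Pool.Agent.Helper65.LinSpace Pool.Agent.Helper78.Mpc Pool.Agent.Helper28.Ram Finset Filter
open Pool.Agent.Helper65.HC Pool.Agent.Helper65.HCS
open Pool.Agent.Helper11.Ram (capN_zero capN_num_le accN_zero)
open Pool.Agent.Helper72.HC (Facts dig_W vals_eq scan_succ sc_succ val_def length_bits_le capN_ite)

/-- The facts on the functions of a circuit. -/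
theorem facts (A : Circ) : ∃ eS eO c : ℕ, ∀ (w y : List Bool)
    (P : Pool.Agent.Helper65.HC.Prm) (t : ℕ),
    P.eS = eS → P.eO = eO → P.x = num w → P.y = num y → w.length < 2 ^ t →
    c * (4 * P.S + 6 * t + 8) ≤ P.Λ → c + P.Λ + 4 * P.S + 6 * t + 8 ≤ P.β → 2 ^ (P.S + 1) ≤ P.M →
    Facts A w y P t := by
  obtain ⟨eS, cS, hS⟩ := fnN_spec A.step_lin
  obtain ⟨eO, cO, hO⟩ := fnN_spec A.out_lin
  refine ⟨eS, eO, cS + cO, ?_⟩
  intro w y P t heS heO hx hy hwt hΛ hβ hM
  have hlog : Nat.log 2 P.x = w.length := by rw [hx, log_num]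
  have hcat : catN P.x P.y = num (w ++ y) := by rw [hx, hy, catN_num]
  refine ⟨?_, ?_, ?_, ?_, ?_⟩
  · intro i j q v h
    unfold Pool.Agent.Helper65.HC.Prm.step
    rw [h, ifz_zero, capN_zero]
  · intro i j hi hj q v hq hv
    unfold Pool.Agent.Helper65.HC.Prm.step
    have hne : num q * num v ≠ 0 := (Nat.mul_pos (num_pos q) (num_pos v)).ne'
    have hlenu : (sd w.length.bits ++ (sd i.bits ++ (sd j.bits ++ (sd q ++ v)))).length ≤
        3 * P.S + 6 * t + 4 := by
      have a1 := length_bits_le hwt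
      have a2 := length_bits_le hi
      have a3 := length_bits_le hj
      simp only [List.length_append, length_sd]
      omega
    rw [ifz_ne hne, hlog, bitsN_eq, bitsN_eq, bitsN_eq, sdN_num, sdN_num, sdN_num, sdN_num,
      catN_num, catN_num, catN_num, catN_num, heS,
      hS _ P.S P.Λ P.β P.M ?_ ?_ hM, capN_ite]
    · refine le_trans (Nat.mul_le_mul (Nat.le_add_right cS cO) ?_) hΛ
      omega
    · omega
  · intro i q b hb
    unfold Pool.Agent.Helper65.HC.Prm.out
    rw [hcat, letN_num, hb]
    cases b <;> rfl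
  · intro i hb
    unfold Pool.Agent.Helper65.HC.Prm.out
    rw [hcat, letN_num, hb]
    show capN P.S (ifz 0 _ _) = 0
    rw [ifz_zero, ifz_zero, capN_zero]
  · intro i hi hb q hq
    unfold Pool.Agent.Helper65.HC.Prm.out
    have hlenu : (sd w.length.bits ++ (sd i.bits ++ q)).length ≤ 3 * P.S + 6 * t + 4 := by
      have a1 := length_bits_le hwt
      have a2 := length_bits_le hi
      simp only [List.length_append, length_sd]
      omega
    have hne : num q ≠ 0 := (num_pos q).ne'
    rw [hcat, letN_num, hb]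
    show capN P.S (ifz 0 _ _) = _
    rw [ifz_zero, ifz_ne hne, hlog, bitsN_eq, bitsN_eq, sdN_num, sdN_num,
      catN_num, catN_num, heO, hO _ P.S P.Λ P.β P.M ?_ ?_ hM, capN_ite]
    · refine le_trans (Nat.mul_le_mul (Nat.le_add_left cO cS) ?_) hΛ
      omega
    · omega

/-! ### The window -/

section

variable (P : Pool.Agent.Helper65.HCS.Prm) (c : ℕ)

theorem win_step (i j q v : ℕ) : (P.win c).step i j q v =
    P.step (P.ct c + i) (P.ct c + j) (ifz j (P.pre c (P.ct c + i)) q) v := rfl

theorem win_out (i q : ℕ) : (P.win c).out i q =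
    P.out (P.ct c + i) (ifz i (P.pre c (P.ct c)) q) := rfl

theorem win_out_lt : ∀ i q, (P.win c).out i q < 2 ^ (P.win c).σ :=
  fun _ _ => capN_lt P.S _

theorem sta_zero (v : ℕ → ℕ) (i : ℕ) : P.sta v c 0 i = P.pre c i := rfl

theorem sta_succ (v : ℕ → ℕ) (τ i : ℕ) : P.sta v c (τ + 1) i =
    P.step i (P.ct c + τ) (P.sta v c τ i) (v τ) := rfl

theorem win_sc {e : ℕ} (n : ℕ) (hn : n < e) :
    (P.win c).sc e ((P.win c).W e) (n + 1) = P.sta (P.win c).val c (n + 1) (P.ct c + e) := by
  induction n with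
  | zero =>
    rw [sc_succ, dig_W _ (win_out_lt P c) hn, win_step, ifz_zero, sta_succ, sta_zero]
  | succ n ih =>
    rw [sc_succ, dig_W _ (win_out_lt P c) hn, win_step, ifz_ne (Nat.succ_ne_zero n),
      ih (by omega), sta_succ P c _ (n + 1)]

theorem win_val (e : ℕ) : (P.win c).val e =
    P.out (P.ct c + e) (P.sta (P.win c).val c e (P.ct c + e)) := by
  rw [val_def, win_out]
  rcases e with _ | e
  · rw [ifz_zero, sta_zero, Nat.add_zero]
  · rw [ifz_ne (Nat.succ_ne_zero e), win_sc P c e (Nat.lt_succ_self e)]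

end

section

variable {A : Circ} {w y : List Bool} {P : Pool.Agent.Helper65.HCS.Prm} {k r : ℕ}
  (F : Facts A w y P.toPrm k) (hr : r < 2 ^ k)

include F hr in
theorem s1_aux {c t : ℕ} (R : Rep A w y P r c t) (τ : ℕ)
    (hv : ∀ e < τ, t + e ≤ r → (P.win c).val e ≠ 0 →
      (P.win c).val e = num (A.val w y (t + e)) ∧ (A.val w y (t + e)).length ≤ P.S) :
    ∀ i, t + τ ≤ i → i ≤ r → (w ++ y).length ≤ i → P.sta (P.win c).val c τ i ≠ 0 →
      P.sta (P.win c).val c τ i = num (A.scan w.length i (A.vals w y i) (t + τ)) ∧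
        (A.scan w.length i (A.vals w y i) (t + τ)).length ≤ P.S := by
  induction τ with
  | zero =>
    intro i h1 h2 h3 _
    exact ⟨R.pre i h1 h2 h3, R.len i h1 h2 h3⟩
  | succ τ ih =>
    intro i h1 h2 h3 hne
    rw [sta_succ, R.ct] at hne ⊢
    have h4 : P.sta (P.win c).val c τ i * (P.win c).val τ ≠ 0 :=
      fun h => hne (F.stepZ _ _ _ _ h)
    obtain ⟨e1, l1⟩ := ih (fun e he => hv e (by omega)) i (by omega) h2 h3 (left_ne_zero_of_mul h4)
    obtain ⟨e2, l2⟩ := hv τ (by omega) (by omega) (right_ne_zero_of_mul h4)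
    rw [e1, e2, F.step i (t + τ) (by omega) (by omega) _ _ l1 l2] at hne ⊢
    rw [← Nat.add_assoc, scan_succ, vals_eq A w y (show t + τ < i by omega)]
    split_ifs at hne ⊢ with h5
    · exact ⟨rfl, h5⟩
    · exact absurd rfl hne

include F hr in
theorem v1_aux {c t : ℕ} (R : Rep A w y P r c t) (e : ℕ) :
    t + e ≤ r → (P.win c).val e ≠ 0 →
      (P.win c).val e = num (A.val w y (t + e)) ∧ (A.val w y (t + e)).length ≤ P.S := by
  induction e using Nat.strong_induction_on with
  | _ e ih =>
    intro her hne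
    have hA : A.val w y (t + e) = A.gate w y (t + e) (A.vals w y (t + e)) := rfl
    rw [win_val, R.ct] at hne ⊢
    rcases hb : (w ++ y)[t + e]? with _ | b
    · have hg : A.val w y (t + e) = A.out (sd w.length.bits ++ (sd (t + e).bits ++
          A.scan w.length (t + e) (A.vals w y (t + e)) (t + e))) := by
        rw [hA]
        unfold Circ.gate
        rw [hb]
      have hq : P.sta (P.win c).val c e (t + e) ≠ 0 := by
        intro h
        rw [h, F.outZ _ hb] at hne
        exact hne rfl
      obtain ⟨e1, l1⟩ := s1_aux F hr R e ih (t + e) le_rfl her (List.getElem?_eq_none_iff.1 hb) hq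
      rw [e1, F.out (t + e) (by omega) hb _ l1] at hne ⊢
      rw [hg]
      split_ifs at hne ⊢ with h3
      · exact ⟨rfl, h3⟩
      · exact absurd rfl hne
    · have hg : A.val w y (t + e) = [false, b] := by
        rw [hA]
        unfold Circ.gate
        rw [hb]
      rw [F.outS _ _ b hb] at hne ⊢
      rw [hg]
      exact ⟨capN_ne hne, capN_num_le hne⟩

include F hr in
theorem s2_aux (hfit : A.Fits w y r P.S) {c t : ℕ} (R : Rep A w y P r c t) (τ : ℕ)
    (hv : ∀ e < τ, t + e ≤ r → (P.win c).val e = num (A.val w y (t + e))) :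
    ∀ i, t + τ ≤ i → i ≤ r → (w ++ y).length ≤ i →
      P.sta (P.win c).val c τ i = num (A.scan w.length i (A.vals w y i) (t + τ)) := by
  induction τ with
  | zero =>
    intro i h1 h2 h3
    exact R.pre i h1 h2 h3
  | succ τ ih =>
    intro i h1 h2 h3
    have hst := (hfit i h2).2 h3
    have l3 := hst (t + τ + 1) (by omega)
    rw [scan_succ, vals_eq A w y (show t + τ < i by omega)] at l3
    rw [sta_succ, R.ct, ih (fun e he => hv e (by omega)) i (by omega) h2 h3,
      hv τ (by omega) (by omega),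
      F.step i (t + τ) (by omega) (by omega) _ _ (hst (t + τ) (by omega))
        (hfit (t + τ) (by omega)).1,
      if_pos l3, ← Nat.add_assoc, scan_succ, vals_eq A w y (show t + τ < i by omega)]

include F hr in
theorem v2_aux (hfit : A.Fits w y r P.S) {c t : ℕ} (R : Rep A w y P r c t) (e : ℕ) :
    t + e ≤ r → (P.win c).val e = num (A.val w y (t + e)) := by
  induction e using Nat.strong_induction_on with
  | _ e ih =>
    intro her
    have hA : A.val w y (t + e) = A.gate w y (t + e) (A.vals w y (t + e)) := rfl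
    obtain ⟨hlen, hst⟩ := hfit (t + e) her
    rw [win_val, R.ct]
    rcases hb : (w ++ y)[t + e]? with _ | b
    · have hg : A.val w y (t + e) = A.out (sd w.length.bits ++ (sd (t + e).bits ++
          A.scan w.length (t + e) (A.vals w y (t + e)) (t + e))) := by
        rw [hA]
        unfold Circ.gate
        rw [hb]
      have hlet := List.getElem?_eq_none_iff.1 hb
      rw [hg] at hlen ⊢
      rw [s2_aux F hr hfit R e ih (t + e) le_rfl her hlet,
        F.out (t + e) (by omega) hb _ (hst hlet (t + e) le_rfl), if_pos hlen]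
    · have hg : A.val w y (t + e) = [false, b] := by
        rw [hA]
        unfold Circ.gate
        rw [hb]
      rw [hg] at hlen ⊢
      rw [F.outS _ _ b hb, capN_num hlen]

include F hr in
theorem right : Right A w y P r where
  v1 := fun _ _ R e => v1_aux F hr R e
  s1 := fun _ _ R τ => s1_aux F hr R τ fun e _ => v1_aux F hr R e
  v2 := fun hfit _ _ R e => v2_aux F hr hfit R e
  s2 := fun hfit _ _ R τ => s2_aux F hr hfit R τ fun e _ => v2_aux F hr hfit R e

end

/-- Packet HCS-WIN. -/
theorem win : WIN_stmt := by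
  intro A
  obtain ⟨eS, eO, c, h⟩ := facts A
  refine ⟨eS, eO, c, ?_⟩
  intro w y P k r heS heO hx hy hwk hr hΛ hβ hM
  exact right (h w y P.toPrm k heS heO hx hy hwk hΛ hβ hM) hr

end Pool.Agent.Helper30.HCS
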